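import Pool.Agent.H86.OG.Few

/-!
# The recursion for the completions, as commutative polynomials
-/

set_option autoImplicit false

namespace Pool.Agent.H86.SW

open Finset
open Pool.Agent.H35
open Pool.Agent.H35.FC (IsCode Facts Tiles gf)
open Pool.Agent.H35.FY (mem_rev rev_rev mem_star_rev code_rev)
open Pool.Agent.H86.OG

section
variable {α : Type} [DecidableEq α]

theorem gf_der (x : α) (L : Finset (List α)) :
    (MvPolynomial.X x : MvPolynomial α ℤ) * gf (der x L) =
      ∑ w ∈ L, if w.head? = some x then
        (w.map (MvPolynomial.X : α → MvPolynomial α ℤ)).prod else 0 := by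
  unfold gf der
  rw [Finset.sum_image, Finset.mul_sum, Finset.sum_filter]
  · refine Finset.sum_congr rfl fun w _ => ?_
    rcases w with _ | ⟨z, w⟩
    · simp
    · by_cases h : z = x
      · subst h
        simp
      · simp [h]
  · intro w hw w' hw' h
    rw [Finset.mem_coe, Finset.mem_filter] at hw hw'
    rcases w with _ | ⟨z, w⟩
    · simp at hw
    rcases w' with _ | ⟨z', w'⟩
    · simp at hw'
    have h1 : z = x := by simpa using hw.2
    have h2 : z' = x := by simpa using hw'.2
    rw [List.tail_cons, List.tail_cons] at h
    rw [h1, h2, h]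

theorem sum_der_gf [Fintype α] (L : Finset (List α)) :
    (∑ x : α, (MvPolynomial.X x : MvPolynomial α ℤ) * gf (der x L)) +
      (if [] ∈ L then 1 else 0) = gf L := by
  simp only [gf_der]
  rw [Finset.sum_comm]
  have h1 : ∀ w ∈ L, (∑ x : α, if w.head? = some x then
      (w.map (MvPolynomial.X : α → MvPolynomial α ℤ)).prod else 0) =
      if w = [] then 0 else (w.map (MvPolynomial.X : α → MvPolynomial α ℤ)).prod := by
    intro w _
    rcases w with _ | ⟨z, w⟩
    · simp
    · simp
  rw [Finset.sum_congr rfl h1]
  have h2 : (if [] ∈ L then (1 : MvPolynomial α ℤ) else 0) =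
      ∑ w ∈ L, if w = [] then (w.map (MvPolynomial.X : α → MvPolynomial α ℤ)).prod else 0 := by
    rw [Finset.sum_ite_eq']
    simp
  rw [h2, ← Finset.sum_add_distrib, gf]
  refine Finset.sum_congr rfl fun w _ => ?_
  split_ifs <;> simp

theorem gf_reverse (K : Finset (List α)) : gf (K.image List.reverse) = gf K := by
  unfold gf
  rw [Finset.sum_image (fun _ _ _ _ h => List.reverse_injective h)]
  refine Finset.sum_congr rfl fun w _ => ?_
  rw [List.map_reverse, List.prod_reverse]

end

section
variable {α : Type} [DecidableEq α] [Fintype α] {C : Finset (List α)} {S P N : Set (List α)} {L : ℕ}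

open Classical in
/-- The recursion on the right. -/
theorem recA_gf (hB : Base (C : Set (List α)) S P N L) (hP : P.Nonempty) (g : List α) :
    ∑ x : α, (MvPolynomial.X x : MvPolynomial α ℤ) * gf (aset_finite hB (g ++ [x])).toFinset =
      gf (aset_finite hB g).toFinset +
        (if RC (C : Set (List α)) S g then 1 else 0) * (gf C - 1) := by
  obtain ⟨p0, hp0⟩ := hP
  have hl0 : LC (C : Set (List α)) P p0 := ⟨[], FC.star_nil, p0, hp0, rfl⟩
  have hmem : ∀ (x : α) (v : List α), v ∈ Aset (C : Set (List α)) S (g ++ [x]) ↔
      x :: v ∈ Aset (C : Set (List α)) S g ∨ (RC (C : Set (List α)) S g ∧ x :: v ∈ C) := by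
    intro x v
    rw [mem_aset_append]
    refine or_congr Iff.rfl ?_
    constructor
    · rintro ⟨z1, z2, e, hz, hr, hc⟩
      rcases z1 with _ | ⟨b, z1⟩
      · rw [List.nil_append] at e
        rw [← e] at hc
        rw [List.append_nil] at hr
        exact ⟨hr, by exact_mod_cast hc⟩
      · exfalso
        have := congrArg List.length e
        have hl := List.length_pos_iff.2 hz
        simp only [List.length_cons, List.length_append, List.length_nil] at this
        omega
    · rintro ⟨hr, hc⟩
      exact ⟨[], [x], rfl, by simp, by rwa [List.append_nil], by exact_mod_cast hc⟩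
  by_cases hr : RC (C : Set (List α)) S g
  · rw [if_pos hr]
    have h1 : ∀ x, gf (aset_finite hB (g ++ [x])).toFinset =
        gf (der x (aset_finite hB g).toFinset) + gf (der x C) := by
      intro x
      have h2 : (aset_finite hB (g ++ [x])).toFinset =
          der x (aset_finite hB g).toFinset ∪ der x C := by
        ext v
        rw [Set.Finite.mem_toFinset, hmem, Finset.mem_union, mem_der, mem_der,
          Set.Finite.mem_toFinset]
        exact or_congr Iff.rfl (and_iff_right hr)
      unfold gf
      rw [h2, Finset.sum_union]
      rw [Finset.disjoint_left]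
      intro v h3 h4
      rw [mem_der, Set.Finite.mem_toFinset] at h3
      rw [mem_der] at h4
      refine acut hB (v1 := []) (v2 := x :: v) (t := p0) h3 (by simp)
        (by rwa [List.append_nil]) (lc_star (FC.star_of_mem (by exact_mod_cast h4)) hl0) hl0
    have h3 := sum_der_gf (aset_finite hB g).toFinset
    have h4 := sum_der_gf C
    rw [if_pos ((Set.Finite.mem_toFinset _).2 ((nil_mem_aset hB.code).2 hr))] at h3
    rw [if_neg (fun h => hB.code.1 (by exact_mod_cast h))] at h4
    have h5 : ∑ x : α, (MvPolynomial.X x : MvPolynomial α ℤ) *
        gf (aset_finite hB (g ++ [x])).toFinset =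
        (∑ x : α, (MvPolynomial.X x : MvPolynomial α ℤ) *
          gf (der x (aset_finite hB g).toFinset)) +
        ∑ x : α, (MvPolynomial.X x : MvPolynomial α ℤ) * gf (der x C) := by
      rw [← Finset.sum_add_distrib]
      refine Finset.sum_congr rfl fun x _ => ?_
      rw [h1 x, mul_add]
    rw [h5, ← h3, ← h4]
    ring
  · rw [if_neg hr]
    have h1 : ∀ x, gf (aset_finite hB (g ++ [x])).toFinset =
        gf (der x (aset_finite hB g).toFinset) := by
      intro x
      have h2 : (aset_finite hB (g ++ [x])).toFinset = der x (aset_finite hB g).toFinset := by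
        ext v
        rw [Set.Finite.mem_toFinset, hmem, mem_der, Set.Finite.mem_toFinset]
        constructor
        · rintro (h | h)
          · exact h
          · exact absurd h.1 hr
        · exact fun h => Or.inl h
      rw [h2]
    have h3 := sum_der_gf (aset_finite hB g).toFinset
    rw [if_neg (fun h => hr ((nil_mem_aset hB.code).1 ((Set.Finite.mem_toFinset _).1 h)))] at h3
    simp only [h1]
    rw [← h3]
    ring

open Classical in
/-- The recursion on the left. -/
theorem recB_gf (hB : Base (C : Set (List α)) S P N L) (hS : S.Nonempty) (f : List α) :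
    ∑ x : α, (MvPolynomial.X x : MvPolynomial α ℤ) * gf (bset_finite hB (x :: f)).toFinset =
      gf (bset_finite hB f).toFinset +
        (if LC (C : Set (List α)) P f then 1 else 0) * (gf C - 1) := by
  have hcoe : (List.reverse '' (C : Set (List α))) =
      ((C.image List.reverse : Finset (List α)) : Set (List α)) := by
    rw [Finset.coe_image]
  have hB' : Base ((C.image List.reverse : Finset (List α)) : Set (List α))
      (List.reverse '' P) (List.reverse '' S) (List.reverse '' N) L := by
    rw [← hcoe]
    exact hB.rev
  have hval : ∀ g, gf (aset_finite hB' g).toFinset = gf (bset_finite hB g.reverse).toFinset := by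
    intro g
    rw [← gf_reverse (bset_finite hB g.reverse).toFinset]
    congr 1
    ext w
    rw [Set.Finite.mem_toFinset, Finset.mem_image, ← hcoe]
    constructor
    · intro h
      refine ⟨w.reverse, ?_, List.reverse_reverse w⟩
      rw [Set.Finite.mem_toFinset, bset_iff, List.reverse_reverse, List.reverse_reverse]
      exact h
    · rintro ⟨v, hv, rfl⟩
      rw [Set.Finite.mem_toFinset, bset_iff, List.reverse_reverse] at hv
      exact hv
  have h := recA_gf hB' (hS.image _) f.reverse
  simp only [hval, gf_reverse, List.reverse_append, List.reverse_reverse, List.reverse_cons,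
    List.reverse_nil, List.nil_append, List.singleton_append] at h
  rw [h]
  congr 2
  rw [lc_iff, hcoe]

end

end Pool.Agent.H86.SW
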